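import Mathlib

set_option autoImplicit false

namespace Pool.Agent.Results.MP_a2bf4b_an.FloorMean

noncomputable def G (x y : ℝ) : ℝ := ((⌊x⌋ + ⌊y⌋ : ℤ) : ℝ) + (Int.fract x + Int.fract y) / 2

lemma half_mem (x y : ℝ) :
    0 ≤ (Int.fract x + Int.fract y) / 2 ∧ (Int.fract x + Int.fract y) / 2 < 1 := by
  have := Int.fract_nonneg x
  have := Int.fract_nonneg y
  have := Int.fract_lt_one x
  have := Int.fract_lt_one y
  constructor <;> linarith

lemma floor_G (x y : ℝ) : ⌊G x y⌋ = ⌊x⌋ + ⌊y⌋ := by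
  have h := half_mem x y
  rw [Int.floor_eq_iff]
  unfold G
  constructor <;> linarith [h.1, h.2]

lemma fract_G (x y : ℝ) : Int.fract (G x y) = (Int.fract x + Int.fract y) / 2 := by
  rw [Int.fract, floor_G]
  unfold G
  ring

lemma G_comm (x y : ℝ) : G x y = G y x := by
  unfold G
  rw [add_comm ⌊x⌋, add_comm (Int.fract x)]

lemma G_mono (x : ℝ) : StrictMono (G x) := by
  intro y z hyz
  rcases (Int.floor_mono hyz.le).eq_or_lt with h | h
  · unfold G
    rw [h]
    have : Int.fract y < Int.fract z := by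
      rw [Int.fract, Int.fract, h]
      linarith
    linarith
  · have h1 := half_mem x y
    have h2 := half_mem x z
    have h3 : ((⌊y⌋ + 1 : ℤ) : ℝ) ≤ (⌊z⌋ : ℝ) := by exact_mod_cast h
    unfold G
    push_cast at h3 ⊢
    linarith [h1.2, h2.1]

/-- There are a nondegenerate interval I, a bisymmetric, symmetric, strictly increasing (in each
variable) operation F on I, and a proper subinterval J of I with more than one point such that
F is reflexive on J but not at some point of I. -/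
theorem result :
    ∃ (I : Set ℝ) (F : ℝ → ℝ → ℝ) (J : Set ℝ),
      I.OrdConnected ∧ I.Nontrivial ∧
      (∀ x ∈ I, ∀ y ∈ I, F x y ∈ I) ∧
      (∀ x ∈ I, ∀ y ∈ I, ∀ u ∈ I, ∀ v ∈ I, F (F x y) (F u v) = F (F x u) (F y v)) ∧
      (∀ x ∈ I, ∀ y ∈ I, F x y = F y x) ∧
      (∀ y ∈ I, StrictMonoOn (fun x => F x y) I) ∧
      (∀ x ∈ I, StrictMonoOn (fun y => F x y) I) ∧
      J.OrdConnected ∧ J.Nontrivial ∧ J ⊂ I ∧
      (∀ x ∈ J, F x x = x) ∧
      ∃ x₀ ∈ I, F x₀ x₀ ≠ x₀ := by
  refine ⟨Set.univ, G, Set.Ico 0 1, Set.ordConnected_univ, ⟨0, trivial, 1, trivial, by norm_num⟩,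
    fun _ _ _ _ => trivial, ?_, fun x _ y _ => G_comm x y, ?_, ?_, Set.ordConnected_Ico,
    ⟨0, by norm_num, 1 / 2, by norm_num, by norm_num⟩, ?_, ?_, 1, trivial, ?_⟩
  · intro x _ y _ u _ v _
    have e : ∀ p q : ℝ, G p q = ((⌊p⌋ + ⌊q⌋ : ℤ) : ℝ) + (Int.fract p + Int.fract q) / 2 :=
      fun _ _ => rfl
    rw [e (G x y), e (G x u), floor_G, floor_G, floor_G, floor_G, fract_G, fract_G, fract_G,
      fract_G]
    push_cast
    ring
  · intro y _ x _ z _ h
    simp only [G_comm _ y]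
    exact G_mono y h
  · intro x _ y _ z _ h
    exact G_mono x h
  · refine ⟨Set.subset_univ _, fun h => ?_⟩
    have := h (Set.mem_univ (2 : ℝ))
    norm_num at this
  · intro x hx
    have h0 : ⌊x⌋ = 0 := Int.floor_eq_zero_iff.2 hx
    unfold G
    rw [Int.fract, h0]
    push_cast
    ring
  · unfold G
    norm_num

end Pool.Agent.Results.MP_a2bf4b_an.FloorMean
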